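import Mathlib

set_option autoImplicit false

/-!
The unit ball of Lin's norm on `ℓ_1` fails the fixed point property for uniformly asymptotically
regular Lipschitz maps. The map is `T₀ ∘ R`, where `R` is a Lipschitz retraction onto the set of
probability sequences and `T₀` moves the proportion `1/(n+2)` of the mass at `n` to `n+1`.
-/

namespace Pool.Agent.Results.MP_7b51c2_an.UniformlyRegularNoFixedPoint

open Filter Topology

/-- The space `ℓ_1`; the coordinates are numbered from `0`. -/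
abbrev ell1 : Type := lp (fun _ : ℕ => ℝ) 1

/-- Lin's norm `sup_{k ≥ 1} γ_k ∑_{n ≥ k} |x_n|`, `γ_k = 8^k / (1 + 8^k)`; as the coordinates are
numbered from `0`, the `k`-th term for `k = 0, 1, …` is `γ_{k+1} ∑_{n ≥ k} |x_n|`. -/
noncomputable def gammaNorm (x : ell1) : ℝ :=
  ⨆ k : ℕ, (8 : ℝ) ^ (k + 1) / (1 + 8 ^ (k + 1)) * ∑' n : ℕ, |x (n + k)|

/-- The closed unit ball of Lin's norm. -/
abbrev Ball : Type := {x : ell1 // gammaNorm x ≤ 1}

lemma summable_abs (x : ell1) : Summable fun n => |x n| := by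
  have h := (lp.memℓp x).summable (by norm_num)
  simpa using h

lemma norm_eq (x : ell1) : ‖x‖ = ∑' n, |x n| := by
  have h := lp.norm_eq_tsum_rpow (p := 1) (by norm_num) x
  simpa using h

lemma hasSum_norm (x : ell1) : HasSum (fun n => |x n|) ‖x‖ := by
  rw [norm_eq]; exact (summable_abs x).hasSum

lemma tail_le (x : ell1) (k : ℕ) : ∑' n : ℕ, |x (n + k)| ≤ ‖x‖ := by
  rw [norm_eq, ← (summable_abs x).sum_add_tsum_nat_add k]
  have : 0 ≤ ∑ i ∈ Finset.range k, |x i| := Finset.sum_nonneg fun _ _ => abs_nonneg _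
  linarith

lemma coeff_le (k : ℕ) : (8 : ℝ) ^ (k + 1) / (1 + 8 ^ (k + 1)) ≤ 1 := by
  rw [div_le_one (by positivity)]; linarith

lemma term_le (x : ell1) (k : ℕ) :
    (8 : ℝ) ^ (k + 1) / (1 + 8 ^ (k + 1)) * ∑' n : ℕ, |x (n + k)| ≤ ‖x‖ := by
  have h0 : 0 ≤ ∑' n : ℕ, |x (n + k)| := tsum_nonneg fun _ => abs_nonneg _
  calc _ ≤ 1 * ∑' n : ℕ, |x (n + k)| := mul_le_mul_of_nonneg_right (coeff_le k) h0
    _ ≤ ‖x‖ := by rw [one_mul]; exact tail_le x k

lemma gammaNorm_le (x : ell1) : gammaNorm x ≤ ‖x‖ := ciSup_le (term_le x)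

lemma le_gammaNorm (x : ell1) : ‖x‖ ≤ 9 / 8 * gammaNorm x := by
  have h : (8 : ℝ) ^ (0 + 1) / (1 + 8 ^ (0 + 1)) * ∑' n : ℕ, |x (n + 0)| ≤ gammaNorm x :=
    le_ciSup (f := fun k : ℕ => (8 : ℝ) ^ (k + 1) / (1 + 8 ^ (k + 1)) * ∑' n : ℕ, |x (n + k)|)
      ⟨‖x‖, by rintro _ ⟨k, rfl⟩; exact term_le x k⟩ 0
  simp only [add_zero] at h
  rw [← norm_eq] at h
  norm_num at h
  linarith

/-! ### The retraction onto the probability sequences -/

/-- The positive part. -/
noncomputable def pos (x : ell1) : ell1 :=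
  ⟨fun n => max (x n) 0, (lp.memℓp x).mono' fun n => by
    rw [Real.norm_eq_abs, Real.norm_eq_abs]
    exact abs_max_le_max_abs_abs.trans (by simp)⟩

lemma pos_apply (x : ell1) (n : ℕ) : pos x n = max (x n) 0 := rfl

lemma pos_lip (x y : ell1) : ‖pos x - pos y‖ ≤ ‖x - y‖ := by
  refine lp.norm_mono one_ne_zero fun n => ?_
  rw [lp.coeFn_sub, Pi.sub_apply, lp.coeFn_sub, Pi.sub_apply, Real.norm_eq_abs, Real.norm_eq_abs]
  exact abs_max_sub_max_le_abs _ _ _

/-- The unit vector `e_0`. -/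
noncomputable def e0 : ell1 := lp.single 1 0 (1 : ℝ)

lemma e0_apply (n : ℕ) : e0 n = if n = 0 then 1 else 0 := by
  unfold e0
  by_cases h : n = 0
  · subst h; rw [lp.single_apply_self, if_pos rfl]
  · rw [lp.single_apply_ne _ _ _ h, if_neg h]

lemma norm_e0 : ‖e0‖ = 1 := by
  unfold e0; rw [lp.norm_single (by norm_num), norm_one]

/-- The probability sequences. -/
def K : Set ell1 := {y | (∀ n, 0 ≤ y n) ∧ ‖y‖ = 1}

lemma hasSum_of_nonneg (y : ell1) (hy : ∀ n, 0 ≤ y n) : HasSum (fun n => y n) ‖y‖ := by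
  have h := hasSum_norm y
  simpa only [abs_of_nonneg (hy _)] using h

/-- The denominator of the retraction. -/
noncomputable def den (x : ell1) : ℝ := max 1 ‖pos x‖

/-- The numerator of the retraction. -/
noncomputable def num (x : ell1) : ell1 := pos x + (max (1 - ‖pos x‖) 0) • e0

/-- The retraction. -/
noncomputable def R (x : ell1) : ell1 := (den x)⁻¹ • num x

lemma one_le_den (x : ell1) : 1 ≤ den x := le_max_left _ _

lemma den_pos (x : ell1) : 0 < den x := lt_of_lt_of_le one_pos (one_le_den x)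

lemma num_nonneg (x : ell1) (n : ℕ) : 0 ≤ num x n := by
  unfold num
  rw [lp.coeFn_add, Pi.add_apply, lp.coeFn_smul, Pi.smul_apply, pos_apply, e0_apply, smul_eq_mul]
  have h1 : 0 ≤ max (x n) 0 := le_max_right _ _
  have h2 : (0 : ℝ) ≤ if n = 0 then 1 else 0 := by split_ifs <;> norm_num
  have h3 : 0 ≤ max (1 - ‖pos x‖) 0 := le_max_right _ _
  positivity

lemma norm_num_eq (x : ell1) : ‖num x‖ = den x := by
  have h1 := hasSum_of_nonneg (pos x) fun n => le_max_right _ _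
  have h2 := hasSum_of_nonneg e0 fun n => by rw [e0_apply]; split_ifs <;> norm_num
  have h3 := h1.add (h2.mul_left (max (1 - ‖pos x‖) 0))
  have h4 := hasSum_of_nonneg (num x) (num_nonneg x)
  have h5 : (fun n => num x n) = fun n => pos x n + max (1 - ‖pos x‖) 0 * e0 n := by
    ext n; rfl
  rw [h5] at h4
  rw [h4.unique h3, norm_e0, mul_one]
  unfold den
  rcases le_total 1 ‖pos x‖ with h | h
  · rw [max_eq_right h, max_eq_right (by linarith)]; ring
  · rw [max_eq_left h, max_eq_left (by linarith)]; ring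

lemma R_mem (x : ell1) : R x ∈ K := by
  refine ⟨fun n => ?_, ?_⟩
  · unfold R
    rw [lp.coeFn_smul, Pi.smul_apply, smul_eq_mul]
    exact mul_nonneg (inv_nonneg.2 (den_pos x).le) (num_nonneg x n)
  · unfold R
    rw [norm_smul, norm_num_eq, Real.norm_eq_abs, abs_of_pos (inv_pos.2 (den_pos x)),
      inv_mul_cancel₀ (den_pos x).ne']

lemma R_eq (y : ell1) (hy : y ∈ K) : R y = y := by
  have h1 : pos y = y := by
    ext n; rw [pos_apply]; exact max_eq_left (hy.1 n)
  unfold R num den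
  rw [h1, hy.2]
  simp

lemma den_lip (x y : ell1) : |den x - den y| ≤ ‖x - y‖ := by
  unfold den
  rw [max_comm 1, max_comm 1]
  refine (abs_max_sub_max_le_abs _ _ _).trans ?_
  exact (abs_norm_sub_norm_le _ _).trans (pos_lip x y)

lemma num_lip (x y : ell1) : ‖num x - num y‖ ≤ 2 * ‖x - y‖ := by
  have h : num x - num y = (pos x - pos y) +
      (max (1 - ‖pos x‖) 0 - max (1 - ‖pos y‖) 0) • e0 := by
    unfold num; rw [sub_smul]; abel
  rw [h]
  refine (norm_add_le _ _).trans ?_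
  rw [norm_smul, norm_e0, mul_one, Real.norm_eq_abs]
  have h1 := abs_max_sub_max_le_abs (1 - ‖pos x‖) (1 - ‖pos y‖) 0
  have h2 : |1 - ‖pos x‖ - (1 - ‖pos y‖)| ≤ ‖x - y‖ := by
    rw [sub_sub_sub_cancel_left, abs_sub_comm]
    exact (abs_norm_sub_norm_le _ _).trans (pos_lip x y)
  have h3 := pos_lip x y
  linarith

lemma R_lip (x y : ell1) : ‖R x - R y‖ ≤ 3 * ‖x - y‖ := by
  have h : R x - R y = (den x)⁻¹ • (num x - num y) + ((den x)⁻¹ - (den y)⁻¹) • num y := by
    unfold R; rw [smul_sub, sub_smul]; abel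
  rw [h]
  refine (norm_add_le _ _).trans ?_
  rw [norm_smul, norm_smul, norm_num_eq, Real.norm_eq_abs, Real.norm_eq_abs,
    abs_of_pos (inv_pos.2 (den_pos x))]
  have hx := den_pos x
  have hy := den_pos y
  have h1 : |(den x)⁻¹ - (den y)⁻¹| * den y = (den x)⁻¹ * |den x - den y| := by
    have e : (den x)⁻¹ - (den y)⁻¹ = (den x)⁻¹ * (den y)⁻¹ * (den y - den x) := by
      field_simp
    rw [e, abs_mul, abs_mul, abs_of_pos (inv_pos.2 hx), abs_of_pos (inv_pos.2 hy),
      abs_sub_comm (den y)]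
    field_simp
  rw [h1]
  have h2 : (den x)⁻¹ ≤ 1 := inv_le_one_of_one_le₀ (one_le_den x)
  have h3 : 0 ≤ (den x)⁻¹ := (inv_pos.2 hx).le
  calc (den x)⁻¹ * ‖num x - num y‖ + (den x)⁻¹ * |den x - den y|
      ≤ 1 * (2 * ‖x - y‖) + 1 * ‖x - y‖ := by
        gcongr
        · exact num_lip x y
        · exact den_lip x y
    _ = 3 * ‖x - y‖ := by ring

/-! ### The map on the probability sequences -/

/-- The proportion of the mass at `n` that moves. -/
noncomputable def a (n : ℕ) : ℝ := 1 / (n + 2)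

lemma a_pos (n : ℕ) : 0 < a n := by unfold a; positivity

lemma a_le (n : ℕ) : a n ≤ 1 / 2 := by
  unfold a
  apply one_div_le_one_div_of_le (by norm_num)
  have : (0 : ℝ) ≤ n := Nat.cast_nonneg n
  linarith

lemma a_succ (n : ℕ) : a (n + 1) = a n - a n * a (n + 1) := by
  unfold a
  push_cast
  field_simp
  ring

lemma a_succ_ge (n : ℕ) : a n / 2 ≤ a (n + 1) := by
  unfold a
  push_cast
  rw [div_div, div_le_div_iff₀ (by positivity) (by positivity)]
  have : (0 : ℝ) ≤ n := Nat.cast_nonneg n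
  linarith

/-- The mass that moves. -/
noncomputable def mv (y : ell1) : ell1 :=
  ⟨fun n => a n * y n, (lp.memℓp y).mono' fun n => by
    rw [norm_mul, Real.norm_eq_abs, abs_of_pos (a_pos n)]
    exact mul_le_of_le_one_left (norm_nonneg _) ((a_le n).trans (by norm_num))⟩

/-- The right shift. -/
noncomputable def sh (y : ell1) : ell1 :=
  ⟨fun n => Nat.casesOn n 0 fun m => y m, by
    refine memℓp_gen ?_
    simp only [ENNReal.toReal_one, Real.rpow_one]
    rw [← summable_nat_add_iff 1]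
    exact summable_abs y⟩

lemma sh_zero (y : ell1) : sh y 0 = 0 := rfl
lemma sh_succ (y : ell1) (n : ℕ) : sh y (n + 1) = y n := rfl

lemma sh_norm (y : ell1) : ‖sh y‖ = ‖y‖ := by
  rw [norm_eq, norm_eq, (summable_abs (sh y)).tsum_eq_zero_add]
  simp [sh_zero, sh_succ]

lemma sh_sub (y z : ell1) : sh y - sh z = sh (y - z) := by
  ext n
  cases n with
  | zero => change sh y 0 - sh z 0 = sh (y - z) 0; simp [sh_zero]
  | succ n => rfl

lemma mv_sub (y z : ell1) : mv y - mv z = mv (y - z) := by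
  ext n
  change a n * y n - a n * z n = a n * (y n - z n)
  ring

lemma mv_norm_le (y : ell1) : ‖mv y‖ ≤ ‖y‖ := by
  refine lp.norm_mono one_ne_zero fun n => ?_
  change ‖a n * y n‖ ≤ ‖y n‖
  rw [norm_mul, Real.norm_eq_abs, abs_of_pos (a_pos n)]
  exact mul_le_of_le_one_left (norm_nonneg _) ((a_le n).trans (by norm_num))

/-- The map `T₀`. -/
noncomputable def T0 (y : ell1) : ell1 := y - mv y + sh (mv y)

lemma T0_lip (y z : ell1) : ‖T0 y - T0 z‖ ≤ 3 * ‖y - z‖ := by
  have h : T0 y - T0 z = (y - z) - mv (y - z) + sh (mv (y - z)) := by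
    unfold T0
    rw [← mv_sub, ← sh_sub]; abel
  rw [h]
  have h1 := norm_add_le ((y - z) - mv (y - z)) (sh (mv (y - z)))
  have h2 := norm_sub_le (y - z) (mv (y - z))
  rw [sh_norm] at h1
  have h3 := mv_norm_le (y - z)
  linarith

lemma mv_nonneg (y : ell1) (hy : ∀ n, 0 ≤ y n) (n : ℕ) : 0 ≤ mv y n :=
  mul_nonneg (a_pos n).le (hy n)

lemma T0_nonneg (y : ell1) (hy : ∀ n, 0 ≤ y n) (n : ℕ) : 0 ≤ T0 y n := by
  have h1 : a n * y n ≤ y n := mul_le_of_le_one_left (hy n) ((a_le n).trans (by norm_num))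
  cases n with
  | zero =>
    change 0 ≤ y 0 - a 0 * y 0 + 0
    linarith
  | succ n =>
    change 0 ≤ y (n + 1) - a (n + 1) * y (n + 1) + mv y n
    have := mv_nonneg y hy n
    linarith

/-- The moving mass, as a number. -/
lemma hasSum_mv (y : ell1) (hy : ∀ n, 0 ≤ y n) : HasSum (fun n => a n * y n) ‖mv y‖ :=
  hasSum_of_nonneg (mv y) (mv_nonneg y hy)

lemma hasSum_sh (y : ell1) (g : ℕ → ℝ) (s : ℝ) (h : HasSum (fun n => g (n + 1) * y n) s) :
    HasSum (fun n => g n * sh y n) s := by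
  rw [← hasSum_nat_add_iff' 1]
  simpa [sh_zero, sh_succ] using h

lemma T0_mem (y : ell1) (hy : y ∈ K) : T0 y ∈ K := by
  refine ⟨T0_nonneg y hy.1, ?_⟩
  have h1 := hasSum_of_nonneg y hy.1
  have h2 := hasSum_mv y hy.1
  have h3 := hasSum_sh (mv y) (fun _ => 1) ‖mv y‖
    (by simp only [one_mul]; exact h2)
  have h4 := (h1.sub h2).add h3
  have h5 := hasSum_of_nonneg (T0 y) (T0_nonneg y hy.1)
  have h6 : (fun n => T0 y n) = fun n => y n - a n * y n + 1 * sh (mv y) n := by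
    ext n; rw [one_mul]; rfl
  rw [h6] at h5
  rw [h5.unique h4, hy.2]
  ring

/-- One step of the decay of the moving mass. -/
lemma step (y : ell1) (hy : y ∈ K) : ‖mv (T0 y)‖ ≤ ‖mv y‖ - ‖mv y‖ ^ 3 / 2 := by
  have h1 := hasSum_of_nonneg y hy.1
  have h2 := hasSum_mv y hy.1
  rw [hy.2] at h1
  -- the sum of `a (n+1) * (a n * y n)`
  have hs : Summable fun n => a (n + 1) * (a n * y n) := by
    refine Summable.of_nonneg_of_le (fun n => ?_) (fun n => ?_) h2.summable
    · exact mul_nonneg (a_pos _).le (mul_nonneg (a_pos n).le (hy.1 n))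
    · exact mul_le_of_le_one_left (mul_nonneg (a_pos n).le (hy.1 n)) ((a_le _).trans (by norm_num))
  have hs' : Summable fun n => a n * (a n * y n) := by
    refine Summable.of_nonneg_of_le (fun n => ?_) (fun n => ?_) h2.summable
    · exact mul_nonneg (a_pos _).le (mul_nonneg (a_pos n).le (hy.1 n))
    · exact mul_le_of_le_one_left (mul_nonneg (a_pos n).le (hy.1 n)) ((a_le _).trans (by norm_num))
  have h3 : HasSum (fun n => a n * sh (mv y) n) (∑' n, a (n + 1) * (a n * y n)) :=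
    hasSum_sh (mv y) a _ hs.hasSum
  have h4 := (h2.sub hs'.hasSum).add h3
  have h5 := hasSum_mv (T0 y) (T0_nonneg y hy.1)
  have h6 : (fun n => a n * T0 y n) =
      fun n => a n * y n - a n * (a n * y n) + a n * sh (mv y) n := by
    ext n
    change a n * (y n - a n * y n + sh (mv y) n) = _
    ring
  rw [h6] at h5
  rw [h5.unique h4]
  -- compare with the tangent line
  set A := ‖mv y‖ with hA
  have hA0 : 0 ≤ A := norm_nonneg _
  have h7 : HasSum (fun n => a n * (a n * y n) - a (n + 1) * (a n * y n))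
      ((∑' n, a n * (a n * y n)) - ∑' n, a (n + 1) * (a n * y n)) := hs'.hasSum.sub hs.hasSum
  have h8 : HasSum (fun n => (3 * A ^ 2 / 2) * (a n * y n) - A ^ 3 * y n)
      ((3 * A ^ 2 / 2) * A - A ^ 3 * 1) := (h2.mul_left _).sub (h1.mul_left _)
  have h9 : (3 * A ^ 2 / 2) * A - A ^ 3 * 1 ≤
      (∑' n, a n * (a n * y n)) - ∑' n, a (n + 1) * (a n * y n) := by
    refine hasSum_le (fun n => ?_) h8 h7
    have e1 : a n * (a n * y n) - a (n + 1) * (a n * y n) = a n ^ 2 * a (n + 1) * y n := by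
      have := a_succ n
      have e2 : a n - a (n + 1) = a n * a (n + 1) := by linarith
      calc a n * (a n * y n) - a (n + 1) * (a n * y n) = (a n - a (n + 1)) * (a n * y n) := by ring
        _ = _ := by rw [e2]; ring
    rw [e1]
    have hy0 := hy.1 n
    have ha := a_pos n
    have hb := a_succ_ge n
    have e3 : a n ^ 3 / 2 ≤ a n ^ 2 * a (n + 1) := by nlinarith [sq_nonneg (a n)]
    have e4 : 3 * A ^ 2 * a n - 2 * A ^ 3 ≤ a n ^ 3 := by
      nlinarith [mul_nonneg ha.le (sq_nonneg (a n - A)), mul_nonneg hA0 (sq_nonneg (a n - A))]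
    have e5 : 3 * A ^ 2 / 2 * a n - A ^ 3 ≤ a n ^ 2 * a (n + 1) := by linarith
    calc 3 * A ^ 2 / 2 * (a n * y n) - A ^ 3 * y n = (3 * A ^ 2 / 2 * a n - A ^ 3) * y n := by ring
      _ ≤ _ := mul_le_mul_of_nonneg_right e5 hy0
  linarith [h9]

lemma iterate_mem (y : ell1) (hy : y ∈ K) (n : ℕ) : T0^[n] y ∈ K := by
  induction n with
  | zero => exact hy
  | succ n ih => rw [Function.iterate_succ_apply']; exact T0_mem _ ih

lemma mv_le_half (y : ell1) (hy : y ∈ K) : ‖mv y‖ ≤ 1 / 2 := by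
  have h1 := hasSum_of_nonneg y hy.1
  have h2 := hasSum_mv y hy.1
  rw [hy.2] at h1
  have h3 := hasSum_le (fun n => mul_le_mul_of_nonneg_right (a_le n) (hy.1 n)) h2 (h1.mul_left (1 / 2))
  linarith

lemma decay (y : ell1) (hy : y ∈ K) (n : ℕ) : (n + 1) * ‖mv (T0^[n] y)‖ ^ 2 ≤ 1 := by
  induction n with
  | zero =>
    have h := mv_le_half y hy
    have h0 := norm_nonneg (mv y)
    simp only [Function.iterate_zero, id]
    push_cast
    nlinarith
  | succ n ih =>
    have h1 := step _ (iterate_mem y hy n)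
    rw [← Function.iterate_succ_apply' T0] at h1
    have h0 := norm_nonneg (mv (T0^[n + 1] y))
    have hm := mv_le_half _ (iterate_mem y hy n)
    have hm0 := norm_nonneg (mv (T0^[n] y))
    generalize ‖mv (T0^[n + 1] y)‖ = B at *
    generalize ‖mv (T0^[n] y)‖ = A at *
    have h2 : B ^ 2 ≤ (A - A ^ 3 / 2) ^ 2 := pow_le_pow_left₀ h0 h1 2
    push_cast
    have hn : (0 : ℝ) ≤ n := Nat.cast_nonneg n
    have h3 : ((n : ℝ) + 1) * (A - A ^ 3 / 2) ^ 2 ≤ (1 - A ^ 2 / 2) ^ 2 := by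
      have e : ((n : ℝ) + 1) * (A - A ^ 3 / 2) ^ 2 = (((n : ℝ) + 1) * A ^ 2) * (1 - A ^ 2 / 2) ^ 2 := by
        ring
      rw [e]
      exact mul_le_of_le_one_left (sq_nonneg _) ih
    have h4 : (A - A ^ 3 / 2) ^ 2 = A ^ 2 * (1 - A ^ 2 / 2) ^ 2 := by ring
    have h5 : (1 - A ^ 2 / 2) ^ 2 * (1 + A ^ 2) ≤ 1 := by
      have hA2 : A ^ 2 ≤ 1 := by nlinarith
      have hA2' : 0 ≤ A ^ 2 := sq_nonneg A
      generalize A ^ 2 = u at *
      nlinarith [mul_nonneg hA2' hA2', mul_nonneg (mul_nonneg hA2' hA2') (sub_nonneg.2 hA2)]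
    have h6 : ((n : ℝ) + 1 + 1) * B ^ 2 ≤ ((n : ℝ) + 1 + 1) * (A - A ^ 3 / 2) ^ 2 :=
      mul_le_mul_of_nonneg_left h2 (by positivity)
    nlinarith

lemma T0_sub_le (y : ell1) : ‖y - T0 y‖ ≤ 2 * ‖mv y‖ := by
  have h : y - T0 y = mv y - sh (mv y) := by unfold T0; abel
  rw [h]
  have h1 := norm_sub_le (mv y) (sh (mv y))
  rw [sh_norm] at h1
  linarith

lemma T0_no_fixed (y : ell1) (hy : y ∈ K) : T0 y ≠ y := by
  intro h
  have h1 : sh (mv y) = mv y := by
    have : y - mv y + sh (mv y) = y := h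
    have h2 : sh (mv y) - mv y = 0 := by
      calc sh (mv y) - mv y = (y - mv y + sh (mv y)) - y := by abel
        _ = 0 := by rw [this, sub_self]
    exact sub_eq_zero.1 h2
  have h2 : ∀ n, mv y n = 0 := by
    intro n
    induction n with
    | zero => rw [← h1]; rfl
    | succ n ih => rw [← h1]; exact ih
  have h3 : y = 0 := by
    ext n
    have := h2 n
    change a n * y n = 0 at this
    rcases mul_eq_zero.1 this with h4 | h4
    · exact absurd h4 (a_pos n).ne'
    · exact h4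
  have h4 := hy.2
  rw [h3, norm_zero] at h4
  exact zero_ne_one h4

/-! ### The map on the ball -/

/-- The map of the ball. -/
noncomputable def T (x : Ball) : Ball :=
  ⟨T0 (R x.1), (gammaNorm_le _).trans (le_of_eq (T0_mem _ (R_mem x.1)).2)⟩

lemma T_iterate (x : Ball) (n : ℕ) : ((T^[n + 1] x : Ball) : ell1) = T0^[n + 1] (R x.1) := by
  induction n with
  | zero => rfl
  | succ n ih =>
    rw [Function.iterate_succ_apply', Function.iterate_succ_apply' T0]
    change T0 (R (T^[n + 1] x).1) = _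
    rw [ih, R_eq _ (iterate_mem _ (R_mem x.1) _)]

/-- There is a map of the closed unit ball of Lin's norm on `ℓ_1` into itself which is Lipschitz for
Lin's norm, uniformly asymptotically regular, and has no fixed point. -/
theorem result :
    ∃ T : Ball → Ball,
      (∃ L : ℝ, ∀ x y : Ball, gammaNorm (T x - T y) ≤ L * gammaNorm (x - y)) ∧
      (∀ ε : ℝ, 0 < ε → ∃ N : ℕ, ∀ n ≥ N, ∀ x : Ball,
        gammaNorm ((T^[n] x : Ball) - (T^[n + 1] x : Ball)) ≤ ε) ∧
      ∀ x : Ball, T x ≠ x := by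
  refine ⟨T, ⟨9 * (9 / 8), fun x y => ?_⟩, fun ε hε => ?_, fun x hx => ?_⟩
  · calc gammaNorm (T x - T y) ≤ ‖T0 (R x.1) - T0 (R y.1)‖ := gammaNorm_le _
      _ ≤ 3 * ‖R x.1 - R y.1‖ := T0_lip _ _
      _ ≤ 3 * (3 * ‖x.1 - y.1‖) := by gcongr; exact R_lip _ _
      _ ≤ 3 * (3 * (9 / 8 * gammaNorm (x.1 - y.1))) := by gcongr; exact le_gammaNorm _
      _ = _ := by ring
  · obtain ⟨N, hN⟩ := exists_nat_gt (4 / ε ^ 2)
    refine ⟨N + 1, fun n hn x => ?_⟩
    obtain ⟨m, rfl⟩ : ∃ m, n = m + 1 := ⟨n - 1, by omega⟩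
    rw [T_iterate, T_iterate]
    refine (gammaNorm_le _).trans ?_
    rw [Function.iterate_succ_apply' T0 (m + 1)]
    refine (T0_sub_le _).trans ?_
    have h := decay (R x.1) (R_mem x.1) (m + 1)
    have h0 := norm_nonneg (mv (T0^[m + 1] (R x.1)))
    generalize ‖mv (T0^[m + 1] (R x.1))‖ = A at *
    have hm : (N : ℝ) ≤ ((m + 1 : ℕ) : ℝ) := Nat.cast_le.2 (by omega)
    have h1 : 4 / ε ^ 2 < ((m + 1 : ℕ) : ℝ) + 1 := by linarith
    have h2 : 4 < (((m + 1 : ℕ) : ℝ) + 1) * ε ^ 2 := by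
      rwa [div_lt_iff₀ (by positivity)] at h1
    by_contra hcon
    push Not at hcon
    have h3 : ε ^ 2 < (2 * A) ^ 2 := pow_lt_pow_left₀ hcon hε.le two_ne_zero
    have hpos : (0 : ℝ) < ((m + 1 : ℕ) : ℝ) + 1 := by positivity
    nlinarith
  · have h1 : T0 (R x.1) = x.1 := congrArg Subtype.val hx
    have h2 : x.1 ∈ K := h1 ▸ T0_mem _ (R_mem x.1)
    rw [R_eq _ h2] at h1
    exact T0_no_fixed _ h2 h1

end Pool.Agent.Results.MP_7b51c2_an.UniformlyRegularNoFixedPoint
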